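import Pool.Agent.Work.MP_e10cd8_co.Mid.Top

/-!
A lower bound for the least number of vertices that forces an independent set of size `n` or a
transitive tournament of size `m`, for all `m` up to `n / 2`.
-/

namespace Pool.Agent.Work.MP_e10cd8_co.Old.WideLower

theorem result : ∃ c : ℝ, 0 < c ∧ ∀ n m N : ℕ, 2 ≤ m → 2 * m ≤ n →
    (∀ G : Digraph (Fin N), (∀ v, ¬ G.Adj v v) →
      (∃ S : Finset (Fin N), S.card = n ∧ ∀ u ∈ S, ∀ v ∈ S, ¬ G.Adj u v) ∨
        ∃ f : Fin m → Fin N, Function.Injective f ∧ ∀ i j, i < j → G.Adj (f i) (f j)) →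
    (c * n / (m * Real.log (n / m))) ^ m / (n : ℝ) ^ 8 ≤ N :=
  Pool.Agent.Work.MP_e10cd8_co.Mid.lower

end Pool.Agent.Work.MP_e10cd8_co.Old.WideLower
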